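import Pool.Agent.LPW.StmtsF

/-!
Squad LPW, row CRG (helper49): sets with few points on lines have few points on curves. The first
lemmas are copied from the file of row CUR (helper1).
-/

set_option autoImplicit false

namespace Pool.Agent.LPW.H49

open Polynomial NumberField
open Pool.Agent.LPW

theorem tdeg_prod (s : Multiset (MvPolynomial (Fin 2) ℚ)) (h : ∀ G ∈ s, G ≠ 0) :
    s.prod ≠ 0 ∧ s.prod.totalDegree = (s.map MvPolynomial.totalDegree).sum := by
  induction s using Multiset.induction_on with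
  | empty =>
    rw [Multiset.prod_zero, Multiset.map_zero, Multiset.sum_zero]
    exact ⟨one_ne_zero, MvPolynomial.totalDegree_one⟩
  | cons a s ih =>
    have h1 := ih fun G hG => h G (Multiset.mem_cons_of_mem hG)
    have h2 := h a (Multiset.mem_cons_self a s)
    rw [Multiset.prod_cons, Multiset.map_cons, Multiset.sum_cons,
      MvPolynomial.totalDegree_mul_of_isDomain h2 h1.1, h1.2]
    exact ⟨mul_ne_zero h2 h1.1, rfl⟩

theorem irr_deg {G : MvPolynomial (Fin 2) ℚ} (hG : Irreducible G) : 1 ≤ G.totalDegree := by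
  by_contra h
  have h0 : G.totalDegree = 0 := by omega
  rw [MvPolynomial.totalDegree_eq_zero_iff_eq_C] at h0
  have hc : MvPolynomial.coeff 0 G ≠ 0 := by
    intro hc
    rw [hc, MvPolynomial.C_0] at h0
    exact hG.ne_zero h0
  refine hG.not_isUnit ?_
  rw [h0]
  exact (IsUnit.mk0 _ hc).map MvPolynomial.C

theorem dvd_deg {G H : MvPolynomial (Fin 2) ℚ} (h : G ∣ H) (hH : H ≠ 0) :
    G.totalDegree ≤ H.totalDegree := by
  obtain ⟨K, rfl⟩ := h
  rw [MvPolynomial.totalDegree_mul_of_isDomain (left_ne_zero_of_mul hH) (right_ne_zero_of_mul hH)]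
  exact Nat.le_add_right _ _

theorem card_le_sum (s : Multiset (MvPolynomial (Fin 2) ℚ)) (h : ∀ G ∈ s, 1 ≤ G.totalDegree) :
    Multiset.card s ≤ (s.map MvPolynomial.totalDegree).sum := by
  induction s using Multiset.induction_on with
  | empty => simp
  | cons a s ih =>
    have h1 := ih fun G hG => h G (Multiset.mem_cons_of_mem hG)
    have h2 := h a (Multiset.mem_cons_self a s)
    rw [Multiset.card_cons, Multiset.map_cons, Multiset.sum_cons]
    omega

theorem ncard_bU {α β : Type*} (s : Finset β) (f : β → Set α) (C : ℝ)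
    (h : ∀ b ∈ s, ((f b).ncard : ℝ) ≤ C) :
    ((⋃ b ∈ s, f b).ncard : ℝ) ≤ s.card * C := by
  classical
  induction s using Finset.induction_on with
  | empty => simp
  | insert a s ha ih =>
    have h1 := ih fun b hb => h b (Finset.mem_insert_of_mem hb)
    have h2 := h a (Finset.mem_insert_self a s)
    rw [Finset.set_biUnion_insert, Finset.card_insert_of_notMem ha]
    have h3 : ((f a ∪ ⋃ b ∈ s, f b).ncard : ℝ) ≤ (f a).ncard + (⋃ b ∈ s, f b).ncard := by
      exact_mod_cast Set.ncard_union_le _ _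
    push_cast
    linarith

theorem box_fin (lo : Fin 2 → ℤ) (N : ℕ) :
    {P : Fin 2 → ℤ | ∀ i, lo i ≤ P i ∧ P i < lo i + N}.Finite := by
  refine (Set.finite_Icc (fun i : Fin 2 => lo i) (fun i => lo i + (N : ℤ))).subset ?_
  intro P hP
  exact ⟨fun i => (hP i).1, fun i => (hP i).2.le⟩

/-- the translation of the variables -/
noncomputable def tau (lo : Fin 2 → ℚ) : MvPolynomial (Fin 2) ℚ →+* MvPolynomial (Fin 2) ℚ :=
  MvPolynomial.eval₂Hom MvPolynomial.C fun i => MvPolynomial.X i + MvPolynomial.C (lo i)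

theorem tau_totalDegree (lo : Fin 2 → ℚ) (g : MvPolynomial (Fin 2) ℚ) :
    (tau lo g).totalDegree ≤ g.totalDegree := by
  unfold tau
  rw [MvPolynomial.coe_eval₂Hom, MvPolynomial.eval₂_eq']
  refine MvPolynomial.totalDegree_finsetSum_le fun d hd => ?_
  refine (MvPolynomial.totalDegree_mul _ _).trans ?_
  rw [MvPolynomial.totalDegree_C, zero_add]
  refine (MvPolynomial.totalDegree_finsetProd _ _).trans ?_
  have h1 : ∀ i : Fin 2, (MvPolynomial.X i + MvPolynomial.C (lo i) :
      MvPolynomial (Fin 2) ℚ).totalDegree ≤ 1 := by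
    intro i
    refine (MvPolynomial.totalDegree_add _ _).trans ?_
    rw [MvPolynomial.totalDegree_X, MvPolynomial.totalDegree_C]
    simp
  calc ∑ i, ((MvPolynomial.X i + MvPolynomial.C (lo i) : MvPolynomial (Fin 2) ℚ) ^
        d i).totalDegree ≤ ∑ i, d i := by
        refine Finset.sum_le_sum fun i _ => ?_
        refine (MvPolynomial.totalDegree_pow _ _).trans ?_
        calc d i * _ ≤ d i * 1 := Nat.mul_le_mul_left _ (h1 i)
          _ = d i := mul_one _
    _ = d.sum fun _ e => e := by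
        rw [Finsupp.sum_fintype _ _ (fun _ => rfl)]
    _ ≤ g.totalDegree := MvPolynomial.le_totalDegree hd

theorem tau_tau (lo : Fin 2 → ℚ) (g : MvPolynomial (Fin 2) ℚ) :
    tau (fun i => - lo i) (tau lo g) = g := by
  have h : (tau (fun i => - lo i)).comp (tau lo) = RingHom.id _ := by
    apply MvPolynomial.ringHom_ext
    · intro r
      simp [tau]
    · intro i
      simp [tau]
  exact congrArg (fun φ : MvPolynomial (Fin 2) ℚ →+* MvPolynomial (Fin 2) ℚ => φ g) h

theorem tau_tau' (lo : Fin 2 → ℚ) (g : MvPolynomial (Fin 2) ℚ) :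
    tau lo (tau (fun i => - lo i) g) = g := by
  have h := tau_tau (fun i => - lo i) g
  simp only [neg_neg] at h
  exact h

/-- the translation as an isomorphism -/
noncomputable def tauE (lo : Fin 2 → ℚ) : MvPolynomial (Fin 2) ℚ ≃+* MvPolynomial (Fin 2) ℚ :=
  RingEquiv.ofRingHom (tau lo) (tau (fun i => - lo i))
    (RingHom.ext (tau_tau' lo)) (RingHom.ext (tau_tau lo))

theorem tau_irr (lo : Fin 2 → ℚ) {g : MvPolynomial (Fin 2) ℚ} (h : Irreducible g) :
    Irreducible (tau lo g) :=
  (MulEquiv.irreducible_iff (tauE lo)).2 h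

theorem tau_deg (lo : Fin 2 → ℚ) (g : MvPolynomial (Fin 2) ℚ) :
    (tau lo g).totalDegree = g.totalDegree := by
  refine le_antisymm (tau_totalDegree lo g) ?_
  have h := tau_totalDegree (fun i => - lo i) (tau lo g)
  rwa [tau_tau] at h

theorem tau_eval (lo : Fin 2 → ℚ) (g : MvPolynomial (Fin 2) ℚ) (x : Fin 2 → ℚ) :
    MvPolynomial.eval x (tau lo g) = MvPolynomial.eval (fun i => x i + lo i) g := by
  have h : (MvPolynomial.eval x).comp (tau lo) = MvPolynomial.eval (fun i => x i + lo i) := by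
    apply MvPolynomial.ringHom_ext
    · intro r
      simp [tau]
    · intro i
      simp [tau]
  exact congrArg (fun φ : MvPolynomial (Fin 2) ℚ →+* ℚ => φ g) h

theorem crg : CrgStmt := by
  intro hB d b ε hε
  obtain ⟨B2, hB2⟩ := hB d ε hε
  refine ⟨d * (b + |B2|), ?_⟩
  intro E hE Φ hΦ hd lo N hN
  classical
  obtain ⟨Q, hQ⟩ : ∃ Q, Q = MvPolynomial.map (Int.castRingHom ℚ) Φ := ⟨_, rfl⟩
  have hQ0 : Q ≠ 0 := by
    rw [hQ]
    intro h
    refine hΦ (MvPolynomial.map_injective (Int.castRingHom ℚ) (RingHom.injective_int _) ?_)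
    rw [h, map_zero]
  have hQd : Q.totalDegree ≤ d := by
    refine le_trans ?_ hd
    rw [hQ]
    exact Finset.sup_mono (MvPolynomial.support_map_subset (Int.castRingHom ℚ) Φ)
  obtain ⟨s, hs⟩ : ∃ s, s = UniqueFactorizationMonoid.factors Q := ⟨_, rfl⟩
  have hirr : ∀ G ∈ s, Irreducible G := by
    intro G hG
    rw [hs] at hG
    exact UniqueFactorizationMonoid.irreducible_of_factor G hG
  have hass : Associated s.prod Q := by
    rw [hs]
    exact UniqueFactorizationMonoid.factors_prod hQ0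
  have hprod := tdeg_prod s fun G hG => (hirr G hG).ne_zero
  have hcard : Multiset.card s ≤ d := by
    have h1 := card_le_sum s fun G hG => irr_deg (hirr G hG)
    rw [← hprod.2] at h1
    exact h1.trans ((dvd_deg hass.dvd hQ0).trans hQd)
  have hGd : ∀ G ∈ s, G.totalDegree ≤ d := by
    intro G hG
    exact (dvd_deg ((Multiset.dvd_prod hG).trans hass.dvd) hQ0).trans hQd
  have hN1 : (1 : ℝ) ≤ (N : ℝ) ^ (1 / 2 + ε) :=
    Real.one_le_rpow (by exact_mod_cast hN) (by positivity)
  have hN0 : (0 : ℝ) ≤ (N : ℝ) ^ (1 / 2 + ε) := zero_le_one.trans hN1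
  have hB1' : (0 : ℝ) ≤ b := Nat.cast_nonneg b
  -- the points on one component
  obtain ⟨S, hS⟩ : ∃ S : MvPolynomial (Fin 2) ℚ → Set (Fin 2 → ℤ), S = fun G =>
      {P : Fin 2 → ℤ | P ∈ E ∧ (∀ i, lo i ≤ P i ∧ P i < lo i + N) ∧
        MvPolynomial.eval (fun i => (P i : ℚ)) G = 0} := ⟨_, rfl⟩
  have hSG : ∀ G ∈ s.toFinset, ((S G).ncard : ℝ) ≤ (b + |B2|) * (N : ℝ) ^ (1 / 2 + ε) := by
    intro G hG
    rw [Multiset.mem_toFinset] at hG
    have h1 := irr_deg (hirr G hG)
    rcases Nat.lt_or_ge G.totalDegree 2 with h2 | h2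
    · have h3 := hE G (by omega)
      have hfin : {P : Fin 2 → ℤ | P ∈ E ∧
          MvPolynomial.eval (fun i => (P i : ℚ)) G = 0}.Finite := by
        rw [← Set.encard_lt_top_iff]
        exact lt_of_le_of_lt h3 (ENat.natCast_lt_top b)
      have h4 : (S G).ncard ≤ b := by
        have h5 : S G ⊆ {P : Fin 2 → ℤ | P ∈ E ∧
            MvPolynomial.eval (fun i => (P i : ℚ)) G = 0} := by
          rw [hS]
          intro P hP
          exact ⟨hP.1, hP.2.2⟩
        have h6 := Set.ncard_le_ncard h5 hfin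
        refine h6.trans ?_
        rw [← hfin.cast_ncard_eq] at h3
        exact_mod_cast h3
      have h5 : ((S G).ncard : ℝ) ≤ b := by exact_mod_cast h4
      nlinarith [abs_nonneg B2]
    · have h3 := hB2 (tau (fun i => (lo i : ℚ)) G) (tau_irr _ (hirr G hG))
        (by rw [tau_deg]; exact h2) (by rw [tau_deg]; exact hGd G hG) N hN
      have h4 : ((S G).ncard : ℝ) ≤ ({P : Fin 2 → ℤ | (∀ i, |P i| ≤ N) ∧
          MvPolynomial.eval (fun i => (P i : ℚ)) (tau (fun i => (lo i : ℚ)) G) = 0}.ncard :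
            ℝ) := by
        have hbf : {P : Fin 2 → ℤ | (∀ i, |P i| ≤ N) ∧
          MvPolynomial.eval (fun i => (P i : ℚ)) (tau (fun i => (lo i : ℚ)) G) = 0}.Finite := by
          refine (Set.finite_Icc (fun _ : Fin 2 => -(N : ℤ)) (fun _ => (N : ℤ))).subset ?_
          intro P hP
          exact ⟨fun i => (abs_le.1 (hP.1 i)).1, fun i => (abs_le.1 (hP.1 i)).2⟩
        have h5 : (S G).ncard ≤ {P : Fin 2 → ℤ | (∀ i, |P i| ≤ N) ∧
            MvPolynomial.eval (fun i => (P i : ℚ)) (tau (fun i => (lo i : ℚ)) G) = 0}.ncard := by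
          refine Set.ncard_le_ncard_of_injOn (fun P i => P i - lo i) ?_ ?_ hbf
          · intro P hP
            rw [hS] at hP
            refine ⟨fun i => ?_, ?_⟩
            · have := hP.2.1 i
              rw [abs_le]
              show -(N : ℤ) ≤ P i - lo i ∧ P i - lo i ≤ N
              omega
            · rw [tau_eval]
              have h7 : (fun i => (((fun i => P i - lo i) i : ℤ) : ℚ) + (lo i : ℚ)) =
                  fun i => (P i : ℚ) := by
                funext i
                push_cast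
                ring
              rw [h7]
              exact hP.2.2
          · intro P _ P' _ h
            funext i
            have := congrFun h i
            have h8 : P i - lo i = P' i - lo i := this
            omega
        exact_mod_cast h5
      have h5 : B2 * (N : ℝ) ^ (1 / 2 + ε) ≤ (b + |B2|) * (N : ℝ) ^ (1 / 2 + ε) :=
        mul_le_mul_of_nonneg_right (by linarith [le_abs_self B2]) hN0
      linarith
  have hsub : {P : Fin 2 → ℤ | P ∈ E ∧ (∀ i, lo i ≤ P i ∧ P i < lo i + N) ∧
      MvPolynomial.eval P Φ = 0} ⊆ ⋃ G ∈ s.toFinset, S G := by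
    rintro P ⟨h1, h2, h3⟩
    have h5 : MvPolynomial.eval (fun i => (P i : ℚ)) Q = 0 := by
      rw [hQ, MvPolynomial.eval_map]
      have h6 : MvPolynomial.eval₂ (Int.castRingHom ℚ) (fun i => (P i : ℚ)) Φ =
          (Int.castRingHom ℚ) (MvPolynomial.eval P Φ) := by
        have h7 := MvPolynomial.eval₂_comp_left (Int.castRingHom ℚ) (RingHom.id ℤ) P Φ
        rw [MvPolynomial.eval₂_id] at h7
        rw [h7]
        rfl
      rw [h6, h3, map_zero]
    obtain ⟨w, hw⟩ := hass
    have h6 : MvPolynomial.eval (fun i => (P i : ℚ)) s.prod = 0 := by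
      rw [← hw, map_mul] at h5
      rcases mul_eq_zero.1 h5 with h7 | h7
      · exact h7
      · exfalso
        exact (w.isUnit.map (MvPolynomial.eval (fun i => (P i : ℚ)))).ne_zero h7
    rw [map_multiset_prod, Multiset.prod_eq_zero_iff, Multiset.mem_map] at h6
    obtain ⟨G, hG, hG0⟩ := h6
    simp only [Set.mem_iUnion]
    refine ⟨G, Multiset.mem_toFinset.2 hG, ?_⟩
    rw [hS]
    exact ⟨h1, h2, hG0⟩
  have hfinU : (⋃ G ∈ s.toFinset, S G).Finite := by
    refine (box_fin lo N).subset ?_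
    intro P hP
    simp only [Set.mem_iUnion] at hP
    obtain ⟨G, -, hP⟩ := hP
    rw [hS] at hP
    exact hP.2.1
  have h1 : ({P : Fin 2 → ℤ | P ∈ E ∧ (∀ i, lo i ≤ P i ∧ P i < lo i + N) ∧
      MvPolynomial.eval P Φ = 0}.ncard : ℝ) ≤
      ((⋃ G ∈ s.toFinset, S G).ncard : ℝ) := by
    exact_mod_cast Set.ncard_le_ncard hsub hfinU
  refine h1.trans ((ncard_bU _ _ _ hSG).trans ?_)
  have h2 : (s.toFinset.card : ℝ) ≤ d := by
    exact_mod_cast (Multiset.toFinset_card_le s).trans hcard
  rw [mul_assoc]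
  exact mul_le_mul_of_nonneg_right h2 (mul_nonneg (by positivity) hN0)

end Pool.Agent.LPW.H49
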